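import Pool.Agent.Run7.h98.ThmB

/-!
A bound for the first cohomology of finite groups with a split BN-pair, such as the finite groups
of Lie type in characteristic different from that of the field of coefficients, by the square
root of the number of double cosets in the Weyl group.
-/

open Module

namespace Pool.Agent.Results.MP_d81877_al.BNPairBound

universe u

/-- The dimension over `k` of the first cohomology group of `G` with coefficients in `V`. -/
noncomputable def dimHOne {k G V : Type u} [Field k] [Group G] [AddCommGroup V] [Module k V]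
    (ρ : Representation k G V) : ℕ :=
  finrank k (groupCohomology.H1 (Rep.of ρ))

/-- The dimension over `k` of the space of vectors of `V` fixed by the subgroup `H`. -/
noncomputable def dimFix {k G V : Type u} [Field k] [Group G] [AddCommGroup V] [Module k V]
    (ρ : Representation k G V) (H : Subgroup G) : ℕ :=
  finrank k (Representation.invariants (ρ.comp H.subtype))

open Classical in
/-- The dimension of the space of vectors fixed by the parabolic subgroup `P_J` if the index of
`B` in `P_J` is not zero in `k`, and the codimension of this space in the space of vectors fixed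
by `B` if the index is zero in `k`. -/
noncomputable def parTerm {k G V : Type u} [Field k] [Group G] [AddCommGroup V] [Module k V]
    {ι : Type} (P : Run7.h98.BNPair G ι) (ρ : Representation k G V) (J : Set ι) : ℕ :=
  if (P.B.relIndex (P.parabolic J) : k) = 0 then dimFix ρ P.B - dimFix ρ (P.parabolic J)
  else dimFix ρ (P.parabolic J)

/-- Let `G` be a finite group with a BN-pair with set `ι` of simple reflections, and let `U` be a
normal subgroup of `B` with `B = U (B ∩ N)` and of order invertible in the field `k`. Let `V i`
be finitely many pairwise non-isomorphic absolutely irreducible representations of `G` over `k`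
with nontrivial action and with a nonzero vector fixed by `B`. Let `J 0, ..., J n` be sets of
simple reflections covering `ι` and let `K`, `M` be sets of simple reflections such that the
indices of `B` in `P_K` and `P_M` are invertible in `k`, and such that either `K` is contained in
all `J j` and the index of `B` in each `P_{J j}` is invertible in `k`, or `K` is empty and each
`J j` is a singleton or the index of `B` in `P_{J j}` is invertible in `k`. Then the dimension of
the first cohomology of `V i` is a sum `c i + x i` with the sum of `c i * dim (V i)^B` at most the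
dimension of the space of homomorphisms from `B` to `k`, and such that, if some `x i` is not zero,
the sum over the `i` with `x i ≠ 0` of `(x + s) (x + 2 d) + n x d`, plus `2 n`, is at most `n`
times the number of double cosets `W_K \ W / W_M` in the Weyl group. -/
theorem result {k G : Type u} [Field k] [Group G] [Finite G] {ι : Type}
    (P : Run7.h98.BNPair G ι) {U : Subgroup G} (hU : Run7.h98.IsSplit P U)
    (hUc : (Nat.card U : k) ≠ 0)
    {κ : Type} [Fintype κ] (V : κ → Type u) [∀ i, AddCommGroup (V i)] [∀ i, Module k (V i)]
    [∀ i, FiniteDimensional k (V i)] (ρ : ∀ i, Representation k G (V i))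
    (hirr : ∀ i, Run7.h98.AbsIrred (ρ i)) (hnt : ∀ i, ∃ g, ρ i g ≠ 1)
    (hne : ∀ i j, i ≠ j → IsEmpty (Representation.Equiv (ρ i) (ρ j)))
    (hB : ∀ i, dimFix (ρ i) P.B ≠ 0)
    {n : ℕ} (J : Fin (n + 1) → Set ι) (hJ : ∀ i, ∃ j, i ∈ J j) (K M : Set ι)
    (hK : (P.B.relIndex (P.parabolic K) : k) ≠ 0)
    (hM : (P.B.relIndex (P.parabolic M) : k) ≠ 0)
    (hJK : (∀ j, K ⊆ J j ∧ (P.B.relIndex (P.parabolic (J j)) : k) ≠ 0) ∨
      (K = ∅ ∧ ∀ j, (P.B.relIndex (P.parabolic (J j)) : k) ≠ 0 ∨ ∃ i, J j = {i})) :
    ∃ c x : κ → ℕ, (∀ i, dimHOne (ρ i) = c i + x i) ∧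
      ∑ i, c i * dimFix (ρ i) P.B ≤ finrank k (Additive P.B →+ k) ∧
      ((∃ i, x i ≠ 0) →
        ∑ i with x i ≠ 0, ((x i + ∑ j, parTerm P (ρ i) (J j)) *
          (x i + 2 * dimFix (ρ i) (P.parabolic M)) +
          n * (x i * dimFix (ρ i) (P.parabolic M))) + 2 * n ≤
        n * P.weylDoubleCosets K M) := by
  classical
  have e : ∀ i (L' : Subgroup G), finrank k (Run7.h98.inv (ρ i) L') = dimFix (ρ i) L' := by
    intro i L'
    rw [Run7.h98.inv_eq_invariants]
    rfl
  have e' : ∀ i (J' : Set ι), Run7.h98.tt P (ρ i) J' = parTerm P (ρ i) J' := by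
    intro i J'
    unfold Run7.h98.tt parTerm
    rw [e, e]
  obtain ⟨c, h1, h2, h3⟩ := Run7.h98.thmB P hU hUc ρ hirr hnt hne
    (fun i h => hB i (by rw [← e, h, finrank_bot])) J hJ K M hK hM hJK
  simp only [e, e'] at h2 h3
  have h1' : ∀ i, c i ≤ dimHOne (ρ i) := h1
  refine ⟨c, fun i => dimHOne (ρ i) - c i, fun i => (Nat.add_sub_of_le (h1' i)).symm, h2, ?_⟩
  rintro ⟨i, hi⟩
  have h4 : ∀ i, dimHOne (ρ i) - c i ≠ 0 ↔ c i < dimHOne (ρ i) := fun i => by omega
  have h5 := h3 ⟨i, (h4 i).1 hi⟩
  have h6 : (Finset.univ.filter fun i => dimHOne (ρ i) - c i ≠ 0) =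
      Finset.univ.filter fun i => c i < Run7.h98.hOne (ρ i) := by
    ext i
    simp only [Finset.mem_filter, Finset.mem_univ, true_and]
    exact h4 i
  rw [h6]
  exact h5

end Pool.Agent.Results.MP_d81877_al.BNPairBound
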