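import Pool.Agent.Run7.h98.ThmA

/-!
A bound for the first cohomology of a finite group generated by subgroups of order invertible
in the field, in terms of the number of double cosets.
-/

open Module

namespace Pool.Agent.Results.MP_d81877_al.DoubleCosetBound

universe u

/-- The dimension over `k` of the first cohomology group of `G` with coefficients in `V`. -/
noncomputable def dimHOne {k G V : Type u} [Field k] [Group G] [AddCommGroup V] [Module k V]
    (ρ : Representation k G V) : ℕ :=
  finrank k (groupCohomology.H1 (Rep.of ρ))

/-- The dimension over `k` of the space of vectors of `V` fixed by the subgroup `H`. -/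
noncomputable def dimFix {k G V : Type u} [Field k] [Group G] [AddCommGroup V] [Module k V]
    (ρ : Representation k G V) (H : Subgroup G) : ℕ :=
  finrank k (Representation.invariants (ρ.comp H.subtype))

/-- Let `G` be a finite group generated by subgroups `H 0, ..., H n` of order invertible in the
field `k`, let `K` be their intersection, and let `L` be a subgroup of order invertible in `k`.
Let `V i` be finitely many pairwise non-isomorphic absolutely irreducible representations of `G`
with nontrivial action and nonzero first cohomology. Then the sum over `i` of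
`(h + s) (h + 2 d) + n h d`, plus `2 n`, is at most `n` times the number of double cosets
`K \ G / L`; here `h` is the dimension of the first cohomology of `V i`, `s` is the sum of the
dimensions of the fixed spaces of the `H j` on `V i` and `d` is the dimension of the fixed space
of `L` on `V i`. -/
theorem result {k G : Type u} [Field k] [Group G] [Finite G]
    {n : ℕ} (H : Fin (n + 1) → Subgroup G) (hgen : ⨆ j, H j = ⊤)
    (hH : ∀ j, (Nat.card (H j) : k) ≠ 0) (L : Subgroup G) (hL : (Nat.card L : k) ≠ 0)
    {ι : Type} [Fintype ι] [Nonempty ι]
    (V : ι → Type u) [∀ i, AddCommGroup (V i)] [∀ i, Module k (V i)]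
    [∀ i, FiniteDimensional k (V i)] (ρ : ∀ i, Representation k G (V i))
    (hirr : ∀ i, Run7.h98.AbsIrred (ρ i)) (hnt : ∀ i, ∃ g, ρ i g ≠ 1)
    (hne : ∀ i j, i ≠ j → IsEmpty (Representation.Equiv (ρ i) (ρ j)))
    (h1 : ∀ i, dimHOne (ρ i) ≠ 0) :
    ∑ i, ((dimHOne (ρ i) + ∑ j, dimFix (ρ i) (H j)) *
        (dimHOne (ρ i) + 2 * dimFix (ρ i) L) +
        n * (dimHOne (ρ i) * dimFix (ρ i) L)) + 2 * n ≤
      n * Nat.card (DoubleCoset.Quotient ((⨅ j, H j : Subgroup G) : Set G) (L : Set G)) := by
  have h := Run7.h98.thmA ρ hirr hnt hne h1 H hgen hH L hL
  have e : ∀ i (L' : Subgroup G), finrank k (Run7.h98.inv (ρ i) L') = dimFix (ρ i) L' := by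
    intro i L'
    rw [Run7.h98.inv_eq_invariants]
    rfl
  simp only [e] at h
  exact h

end Pool.Agent.Results.MP_d81877_al.DoubleCosetBound
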